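import Mathlib
import Pool.Agent.H29.G19

namespace Pool.Agent.Results.MP_c57c58_al.Counter

open scoped Pointwise commutatorElement
open Pool.Agent.H29.G19

theorem cls (K : Type) [CommRing K] [Nontrivial K] :
    Group.nilpotencyClass (B : Subgroup (G K)) = 2 := by
  have h2 : Subgroup.upperCentralSeries (B : Subgroup (G K)) 2 = ⊤ := by
    rw [eq_top_iff]
    intro g _
    rw [Subgroup.mem_upperCentralSeries_succ_iff]
    intro h
    rw [Subgroup.upperCentralSeries_one, Subgroup.mem_center_iff]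
    intro k
    apply Subtype.ext
    have e : ((⁅g, h⁆ : (B : Subgroup (G K))) : G K) = cm g h := comm_eq _ _ g.2 h.2
    rw [Subgroup.coe_mul, Subgroup.coe_mul, e]
    exact (cm_central _ _ _ k.2).symm
  haveI : Group.IsNilpotent (B : Subgroup (G K)) := ⟨2, h2⟩
  have h3 := Subgroup.upperCentralSeries_eq_top_iff_nilpotencyClass_le.1 h2
  have h4 : ¬ Group.nilpotencyClass (B : Subgroup (G K)) ≤ 1 := by
    intro h
    have h5 := Subgroup.upperCentralSeries_eq_top_iff_nilpotencyClass_le.2 h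
    rw [Subgroup.upperCentralSeries_one] at h5
    have h6 : (⟨ey, ey_mem⟩ : (B : Subgroup (G K))) ∈ Subgroup.center _ := by
      rw [h5]; trivial
    exact xy (congrArg Subtype.val (Subgroup.mem_center_iff.1 h6 ⟨ex, ex_mem⟩))
  omega

theorem result (p : ℕ) (hp : p.Prime) :
    ∃ (P : Type) (_ : Group P) (_ : Finite P) (A B : Subgroup P),
      IsPGroup p P ∧ (A : Set P) * (B : Set P) = Set.univ ∧ A ⊓ B = ⊥ ∧
      (∀ x ∈ A, ∀ y ∈ A, x * y = y * x) ∧ Group.nilpotencyClass B = 2 ∧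
      ¬ ∃ B₀ : Subgroup P, B₀ ≤ B ∧ (∀ x ∈ B₀, ∀ y ∈ B₀, x * y = y * x) ∧
        ((A ⊔ ⁅B, B⁆ : Subgroup P) : Set P) = (A : Set P) * (B₀ : Set P) := by
  haveI := Fact.mk hp
  refine ⟨G (ZMod p), inferInstance, Finite.of_equiv _ eqv.symm, A, B, ?_, ?_, ?_,
    fun x hx y hy => A_comm x y hx hy, cls _, ?_⟩
  · apply IsPGroup.of_card (n := 19)
    rw [Nat.card_congr eqv]
    simp
  · rw [Set.eq_univ_iff_forall]
    intro g
    obtain ⟨b, hb, a, ha, h⟩ := BA g⁻¹
    refine ⟨a⁻¹, A.inv_mem ha, b⁻¹, B.inv_mem hb, ?_⟩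
    change a⁻¹ * b⁻¹ = g
    rw [← mul_inv_rev, ← h, inv_inv]
  · rw [eq_bot_iff]
    intro g hg
    exact AB_inf g hg.1 hg.2
  · rintro ⟨B₀, hle, hc, hH⟩
    have key : ∀ t : G (ZMod p), t ∈ (A ⊔ ⁅B (K := ZMod p), B (K := ZMod p)⁆ : Subgroup (G (ZMod p))) →
        t ∈ (B : Subgroup (G (ZMod p))) → t ∈ B₀ := by
      intro t ht hB
      have ht' : t ∈ ((A ⊔ ⁅B (K := ZMod p), B (K := ZMod p)⁆ : Subgroup (G (ZMod p))) : Set (G (ZMod p))) := ht
      rw [hH] at ht'
      obtain ⟨a, ha, b, hb, hab⟩ := ht'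
      have hab' : a * b = t := hab
      have h1 : a ∈ (B : Subgroup (G (ZMod p))) := by
        have : a = t * b⁻¹ := by rw [← hab', mul_inv_cancel_right]
        rw [this]
        exact B.mul_mem hB (B.inv_mem (hle hb))
      rw [AB_inf a ha h1, one_mul] at hab'
      exact hab' ▸ hb
    set H : Subgroup (G (ZMod p)) := A ⊔ ⁅B (K := ZMod p), B (K := ZMod p)⁆
    have hA : ∀ t, t ∈ (A : Subgroup (G (ZMod p))) → t ∈ H := fun t ht => Subgroup.mem_sup_left ht
    have hz' : (ez : G (ZMod p)) ∈ H := by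
      rw [← hz]
      exact Subgroup.mem_sup_right (Subgroup.commutator_mem_commutator ex_mem ey_mem)
    have hW' : (eW : G (ZMod p)) ∈ H := by
      rw [← hW]
      exact H.mul_mem (H.mul_mem (H.mul_mem (hA _ ea_mem) hz') (H.inv_mem (hA _ ea_mem)))
        (H.inv_mem hz')
    have hP' : (eP : G (ZMod p)) ∈ H := by
      rw [← hP]
      exact H.mul_mem (H.mul_mem (H.mul_mem (H.mul_mem (hA _ ec_mem) hz')
        (H.inv_mem (hA _ ec_mem))) (H.inv_mem hz')) (hA _ ep_mem)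
    exact PW (hc _ (key _ hP' eP_mem) _ (key _ hW' eW_mem))

end Pool.Agent.Results.MP_c57c58_al.Counter
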